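import Pool.Agent.W593.ZT.Stm

set_option autoImplicit false

/-! Project ZT (helper593), part OS. -/

open scoped Classical

namespace Pool.Agent.W15.ZT

open Pool.Agent.W593.ZT

theorem mk_eq_iff {G : Type} [AddCommGroup G] (T : AddSubgroup G) (x y : G) :
    (QuotientAddGroup.mk x : G ⧸ T) = QuotientAddGroup.mk y ↔ x - y ∈ T := by
  rw [eq_comm, QuotientAddGroup.eq, neg_add_eq_sub]

theorem os (hHL : S_HL) : S_OS := by
  intro V G _ _ c hsym T W H hHW hHn hnc hU2
  obtain ⟨b, hb⟩ := hHn
  set N := nc c T W H with hN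
  have hNsub : N ⊆ W \ H := Finset.filter_subset _ _
  set U := (W \ H) \ N with hU
  have hUc : U.card + N.card = (W \ H).card := Finset.card_sdiff_add_card_eq_card hNsub
  -- constancy on `U`
  have hconst : ∀ z, z ∈ W \ H → z ∉ N → ∀ h ∈ H, ∀ h' ∈ H, c z h - c z h' ∈ T := by
    intro z hz hzN h hh h' hh'
    by_contra hcon
    apply hzN
    rw [hN, nc, Finset.mem_filter]
    refine ⟨hz, fun hTc => hcon ?_⟩
    exact hTc _ (Finset.mem_image_of_mem _ hh) _ (Finset.mem_image_of_mem _ hh')
  let α : V → G ⧸ T := fun z => QuotientAddGroup.mk (c z b)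
  let χ : V → V → G ⧸ T := fun x y => QuotientAddGroup.mk (c x y)
  have hχ : ∀ x y, χ x y = χ y x := fun x y => by simp only [χ, hsym x y]
  obtain ⟨t, ht⟩ : ∃ t, T.index = t + N.card + 1 := ⟨T.index - N.card - 1, by omega⟩
  have ht1 : 1 ≤ t := by omega
  have hUt : 2 * t ≤ U.card := by omega
  by_cases hcase : ∀ z ∈ U, ∃ h ∈ U, h ≠ z ∧ χ z h ≠ α z
  · left
    obtain ⟨P, Λ, hP, hΛ, hPΛ, hcard⟩ := hHL V (G ⧸ T) U α χ hχ hcase
    obtain ⟨Λ', hΛ', hΛc⟩ := Finset.exists_subset_card_eq (show t ≤ Λ.card by omega)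
    have hf : ∀ z ∈ Λ', ∃ h ∈ P, χ z h ≠ α z := fun z hz => hPΛ z (hΛ' hz)
    choose! f hfP hfne using hf
    have hP' : Λ'.image f ⊆ P := by
      intro y hy
      obtain ⟨z, hz, rfl⟩ := Finset.mem_image.1 hy
      exact hfP z hz
    refine ⟨Λ'.image f, Λ', hP'.trans hP, ?_, ?_, ?_, ?_⟩
    · intro z hz
      have h1 := Finset.mem_sdiff.1 (hΛ (hΛ' hz))
      exact Finset.mem_sdiff.2 ⟨h1.1, fun h2 => h1.2 (hP' h2)⟩
    · have h1 : (Λ'.image f).card ≤ Λ'.card := Finset.card_image_le
      omega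
    · omega
    · intro z hz
      refine ⟨f z, Finset.mem_image_of_mem _ hz, fun h' hh' hmem => hfne z hz ?_⟩
      have hzU := (Finset.mem_sdiff.1 (hΛ (hΛ' hz))).1
      have h2 := Finset.mem_sdiff.1 hzU
      show (QuotientAddGroup.mk (c z (f z)) : G ⧸ T) = QuotientAddGroup.mk (c z b)
      rw [mk_eq_iff]
      have h3 := hconst z h2.1 h2.2 h' hh' b hb
      have h4 := T.add_mem hmem h3
      have h5 : c z (f z) - c z h' + (c z h' - c z b) = c z (f z) - c z b := by abel
      rwa [h5] at h4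
  · push Not at hcase
    obtain ⟨z0, hz0, hz0c⟩ := hcase
    have hz0' := Finset.mem_sdiff.1 hz0
    set Λ0 := U.filter (fun z => α z ≠ α z0) with hΛ0
    by_cases hbig : t ≤ Λ0.card
    · left
      obtain ⟨Λ', hΛ', hΛc⟩ := Finset.exists_subset_card_eq hbig
      refine ⟨{z0}, Λ', Finset.singleton_subset_iff.2 hz0, ?_, ?_, ?_, ?_⟩
      · intro z hz
        have h1 := Finset.mem_filter.1 (hΛ' hz)
        refine Finset.mem_sdiff.2 ⟨h1.1, fun h2 => ?_⟩
        rw [Finset.mem_singleton] at h2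
        exact h1.2 (by rw [h2])
      · rw [Finset.card_singleton]; omega
      · omega
      · intro z hz
        have h1 := Finset.mem_filter.1 (hΛ' hz)
        refine ⟨z0, Finset.mem_singleton_self _, fun h' hh' hmem => h1.2 ?_⟩
        have hne : z ≠ z0 := fun h => h1.2 (by rw [h])
        have h2 := Finset.mem_sdiff.1 h1.1
        have h3 := hconst z h2.1 h2.2 h' hh' b hb
        have h4 := T.add_mem hmem h3
        have h5 : c z z0 - c z h' + (c z h' - c z b) = c z z0 - c z b := by abel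
        rw [h5] at h4
        have h6 : χ z z0 = α z := (mk_eq_iff T _ _).2 h4
        have h7 : χ z0 z = α z0 := hz0c z h1.1 hne
        rw [← h6, hχ, h7]
    · right
      push Not at hbig
      refine ⟨z0, c z0 b, hz0'.1, hz0'.2, ?_, ?_⟩
      · intro y hy hne hyN
        by_cases hyH : y ∈ H
        · exact hconst z0 hz0'.1 hz0'.2 y hyH b hb
        · have hyU : y ∈ U := Finset.mem_sdiff.2 ⟨Finset.mem_sdiff.2 ⟨hy, hyH⟩, hyN⟩
          exact (mk_eq_iff T _ _).1 (hz0c y hyU hne)
      · have hsub : wr c T (c z0 b) W H ⊆ N ∪ Λ0 := by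
          intro z hz
          rw [wr, Finset.mem_filter] at hz
          rw [Finset.mem_union]
          by_cases hzN : z ∈ N
          · exact Or.inl hzN
          · right
            rw [hΛ0, Finset.mem_filter]
            refine ⟨Finset.mem_sdiff.2 ⟨hz.1, hzN⟩, fun heq => hz.2 fun h hh => ?_⟩
            have h1 := (mk_eq_iff T _ _).1 heq
            have h2 := hconst z hz.1 hzN h hh b hb
            have h3 := T.add_mem h2 h1
            have h4 : c z h - c z b + (c z b - c z0 b) = c z h - c z0 b := by abel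
            rwa [h4] at h3
        have h1 := (Finset.card_le_card hsub).trans (Finset.card_union_le _ _)
        omega

end Pool.Agent.W15.ZT
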